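import Mathlib
import Pool.Agent.Helper98.LegendreDet

/-!
# Finiteness of the exceptional set `E(m)`
-/

namespace Pool.Agent.Results.MP_63ede0_nt.ExceptionalFinite

open Pool.Agent.Helper98.LegendreDet

/-- For every `m` (odd or not) only finitely many primes `p ≡ 1 (mod 4)` divide `D_p^{(m)}`. -/
theorem result : ∀ m : ℕ, (excSet m).Finite := by
  intro m
  apply Set.Finite.subset (s := Set.Iic (2 * m + 1) ∪
    ⋃ r ∈ Set.Iic m, {d | d ∣ num m r})
  · refine (Set.finite_Iic _).union (Set.Finite.biUnion (Set.finite_Iic m) ?_)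
    intro r hr
    have hpos : num m r ≠ 0 := (num_pos hr).ne'
    refine (Set.finite_Iic (num m r)).subset ?_
    intro d hd
    exact Nat.le_of_dvd (Nat.pos_of_ne_zero hpos) hd
  · rintro p ⟨hp, h4, hd⟩
    haveI : Fact p.Prime := ⟨hp⟩
    rcases Nat.lt_or_ge (2 * m + 1) p with h | h
    · right
      obtain ⟨r, hr, hdr⟩ := (dvd_legendreDet_iff_num h4 h).mp hd
      simp only [Set.mem_iUnion]
      exact ⟨r, hr, hdr⟩
    · left
      exact h

end Pool.Agent.Results.MP_63ede0_nt.ExceptionalFinite
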