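import Mathlib
import Pool.Agent.Helper98.LegendreDet

/-!
# The exceptional sets `E(5)`, `E(7)`, `E(9)`, `E(11)`
-/

namespace Pool.Agent.Results.MP_63ede0_nt.ExceptionalSets

open Pool.Agent.Helper98.LegendreDet

/-- Membership for a prime in terms of the coefficients. -/
lemma mem_iff_coef {m p : ℕ} (hp : p.Prime) (h4 : p % 4 = 1) :
    p ∈ excSet m ↔ ∃ r < (p - 1) / 2, (p : ℤ) ∣ coef m ((p - 1) / 2) r := by
  haveI : Fact p.Prime := ⟨hp⟩
  have h := dvd_legendreDet_iff (p := p) (by omega) m
  constructor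
  · rintro ⟨_, _, hd⟩
    exact h.mp hd
  · intro hr
    exact ⟨hp, h4, h.mpr hr⟩

lemma mem_iff_num {m p : ℕ} (hp : p.Prime) (h4 : p % 4 = 1) (hm : 2 * m + 1 < p) :
    p ∈ excSet m ↔ ∃ r ≤ m, p ∣ num m r := by
  haveI : Fact p.Prime := ⟨hp⟩
  have h := dvd_legendreDet_iff_num h4 hm
  constructor
  · rintro ⟨_, _, hd⟩
    exact h.mp hd
  · intro hr
    exact ⟨hp, h4, h.mpr hr⟩

lemma p5 : Nat.Prime 5 := by norm_num
lemma p13 : Nat.Prime 13 := by norm_num
lemma p17 : Nat.Prime 17 := by norm_num

/-- Small primes, checked directly. -/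
lemma small_not {m p : ℕ} (hp : p.Prime) (h4 : p % 4 = 1)
    (h : ∀ r < (p - 1) / 2, ¬ (p : ℤ) ∣ coef m ((p - 1) / 2) r) : p ∉ excSet m := by
  rw [mem_iff_coef hp h4]
  rintro ⟨r, hr, hd⟩
  exact h r hr hd

lemma not5_5 : 5 ∉ excSet 5 := small_not p5 rfl (by decide +kernel)
lemma not5_7 : 5 ∉ excSet 7 := small_not p5 rfl (by decide +kernel)
lemma not5_9 : 5 ∉ excSet 9 := small_not p5 rfl (by decide +kernel)
lemma not5_11 : 5 ∉ excSet 11 := small_not p5 rfl (by decide +kernel)
lemma in13_7 : 13 ∈ excSet 7 := (mem_iff_coef p13 rfl).mpr ⟨2, by norm_num, by decide +kernel⟩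
lemma in13_9 : 13 ∈ excSet 9 := (mem_iff_coef p13 rfl).mpr ⟨4, by norm_num, by decide +kernel⟩
lemma not13_11 : 13 ∉ excSet 11 := small_not p13 rfl (by decide +kernel)
lemma in17_9 : 17 ∈ excSet 9 := (mem_iff_coef p17 rfl).mpr ⟨2, by norm_num, by decide +kernel⟩
lemma in17_11 : 17 ∈ excSet 11 := (mem_iff_coef p17 rfl).mpr ⟨4, by norm_num, by decide +kernel⟩

lemma big_in {m p r : ℕ} (hp : p.Prime) (h4 : p % 4 = 1) (hm : 2 * m + 1 < p) (hr : r ≤ m)
    (hd : p ∣ num m r) : p ∈ excSet m :=
  (mem_iff_num hp h4 hm).mpr ⟨r, hr, hd⟩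

lemma in29_5 : 29 ∈ excSet 5 :=
  big_in (r := 0) (by norm_num) rfl (by norm_num) (by norm_num) (by decide +kernel)
lemma in53_7 : 53 ∈ excSet 7 :=
  big_in (r := 2) (by norm_num) rfl (by norm_num) (by norm_num) (by decide +kernel)
lemma in2477_7 : 2477 ∈ excSet 7 :=
  big_in (r := 0) (by norm_num) rfl (by norm_num) (by norm_num) (by decide +kernel)
lemma in29_9 : 29 ∈ excSet 9 :=
  big_in (r := 0) (by norm_num) rfl (by norm_num) (by norm_num) (by decide +kernel)
lemma in1201_9 : 1201 ∈ excSet 9 :=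
  big_in (r := 1) (by norm_num) rfl (by norm_num) (by norm_num) (by decide +kernel)
lemma in29_11 : 29 ∈ excSet 11 :=
  big_in (r := 3) (by norm_num) rfl (by norm_num) (by norm_num) (by decide +kernel)
lemma in1597_11 : 1597 ∈ excSet 11 :=
  big_in (r := 2) (by norm_num) rfl (by norm_num) (by norm_num) (by decide +kernel)

/-- If all prime factors of the product of `L` of the numbers `num m r` are in a list of primes. -/
lemma of_dvd_prod {p : ℕ} (hp : p.Prime) (L : List ℕ) (hL : ∀ q ∈ L, Nat.Prime q)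
    (h : p ∣ L.prod) : p ∈ L := by
  have hp' : Prime p := hp.prime
  exact mem_list_primes_of_dvd_prod hp' (fun q hq => (hL q hq).prime) h

/-- The prime factors of all `num 5 r`. -/
lemma fac5 {p r : ℕ} (hp : p.Prime) (hr : r ≤ 5) (hd : p ∣ num 5 r) :
    p ∈ [2, 3, 5, 7, 11, 29] := by
  have h : num 5 r ∣ ([2, 3, 5, 7, 11, 29] : List ℕ).prod ^ 5 := by
    interval_cases r <;> decide +kernel
  exact of_dvd_prod hp _ (by intro q hq; fin_cases hq <;> norm_num)
    (hp.dvd_of_dvd_pow (hd.trans h))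

lemma fac7 {p r : ℕ} (hp : p.Prime) (hr : r ≤ 7) (hd : p ∣ num 7 r) :
    p ∈ [2, 3, 5, 7, 11, 13, 53, 743, 2477] := by
  have h : num 7 r ∣ ([2, 3, 5, 7, 11, 13, 53, 743, 2477] : List ℕ).prod ^ 4 := by
    interval_cases r <;> decide +kernel
  exact of_dvd_prod hp _ (by intro q hq; fin_cases hq <;> norm_num)
    (hp.dvd_of_dvd_pow (hd.trans h))

lemma fac9 {p r : ℕ} (hp : p.Prime) (hr : r ≤ 9) (hd : p ∣ num 9 r) :
    p ∈ [2, 3, 5, 7, 11, 13, 17, 19, 29, 47, 1201] := by
  have h : num 9 r ∣ ([2, 3, 5, 7, 11, 13, 17, 19, 29, 47, 1201] : List ℕ).prod ^ 8 := by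
    interval_cases r <;> decide +kernel
  exact of_dvd_prod hp _ (by intro q hq; fin_cases hq <;> norm_num)
    (hp.dvd_of_dvd_pow (hd.trans h))

lemma fac11 {p r : ℕ} (hp : p.Prime) (hr : r ≤ 11) (hd : p ∣ num 11 r) :
    p ∈ [2, 3, 5, 7, 11, 13, 17, 19, 23, 29, 31, 43, 367, 859, 1597] := by
  have h : num 11 r ∣
      ([2, 3, 5, 7, 11, 13, 17, 19, 23, 29, 31, 43, 367, 859, 1597] : List ℕ).prod ^ 9 := by
    interval_cases r <;> decide +kernel
  exact of_dvd_prod hp _ (by intro q hq; fin_cases hq <;> norm_num)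
    (hp.dvd_of_dvd_pow (hd.trans h))

/-- The primes up to `23` which are `1` modulo `4`. -/
lemma small_cases {p : ℕ} (hp : p.Prime) (h4 : p % 4 = 1) (h : p ≤ 23) :
    p = 5 ∨ p = 13 ∨ p = 17 := by
  interval_cases p <;> first | omega | (exfalso; revert hp; norm_num)

/-- The exact exceptional sets `E(5)`, `E(7)`, `E(9)`, `E(11)`. -/
theorem result :
    excSet 5 = {29} ∧ excSet 7 = {13, 53, 2477} ∧ excSet 9 = {13, 17, 29, 1201} ∧
      excSet 11 = {17, 29, 1597} := by
  refine ⟨?_, ?_, ?_, ?_⟩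
  · ext p
    simp only [Set.mem_singleton_iff]
    constructor
    · intro hmem
      obtain ⟨hp, h4, -⟩ := id hmem
      rcases Nat.lt_or_ge (2 * 5 + 1) p with h | h
      · obtain ⟨r, hr, hd⟩ := (mem_iff_num hp h4 h).mp hmem
        have := fac5 hp hr hd
        simp only [List.mem_cons, List.not_mem_nil, or_false] at this
        omega
      · rcases small_cases hp h4 (by omega) with rfl | rfl | rfl
        · exact absurd hmem not5_5
        · omega
        · omega
    · rintro rfl
      exact in29_5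
  · ext p
    simp only [Set.mem_insert_iff, Set.mem_singleton_iff]
    constructor
    · intro hmem
      obtain ⟨hp, h4, -⟩ := id hmem
      rcases Nat.lt_or_ge (2 * 7 + 1) p with h | h
      · obtain ⟨r, hr, hd⟩ := (mem_iff_num hp h4 h).mp hmem
        have := fac7 hp hr hd
        simp only [List.mem_cons, List.not_mem_nil, or_false] at this
        omega
      · rcases small_cases hp h4 (by omega) with rfl | rfl | rfl
        · exact absurd hmem not5_7
        · omega
        · omega
    · rintro (rfl | rfl | rfl)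
      · exact in13_7
      · exact in53_7
      · exact in2477_7
  · ext p
    simp only [Set.mem_insert_iff, Set.mem_singleton_iff]
    constructor
    · intro hmem
      obtain ⟨hp, h4, -⟩ := id hmem
      rcases Nat.lt_or_ge (2 * 9 + 1) p with h | h
      · obtain ⟨r, hr, hd⟩ := (mem_iff_num hp h4 h).mp hmem
        have := fac9 hp hr hd
        simp only [List.mem_cons, List.not_mem_nil, or_false] at this
        omega
      · rcases small_cases hp h4 (by omega) with rfl | rfl | rfl
        · exact absurd hmem not5_9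
        · omega
        · omega
    · rintro (rfl | rfl | rfl | rfl)
      · exact in13_9
      · exact in17_9
      · exact in29_9
      · exact in1201_9
  · ext p
    simp only [Set.mem_insert_iff, Set.mem_singleton_iff]
    constructor
    · intro hmem
      obtain ⟨hp, h4, -⟩ := id hmem
      rcases Nat.lt_or_ge (2 * 11 + 1) p with h | h
      · obtain ⟨r, hr, hd⟩ := (mem_iff_num hp h4 h).mp hmem
        have := fac11 hp hr hd
        simp only [List.mem_cons, List.not_mem_nil, or_false] at this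
        omega
      · rcases small_cases hp h4 (by omega) with rfl | rfl | rfl
        · exact absurd hmem not5_11
        · exact absurd hmem not13_11
        · omega
    · rintro (rfl | rfl | rfl)
      · exact in17_11
      · exact in29_11
      · exact in1597_11

end Pool.Agent.Results.MP_63ede0_nt.ExceptionalSets
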